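import Pool.Agent.H799K.Chi
import Pool.Agent.Helper378.Final

/-!
A near-quadratic lower bound for the chromatic number of unit ball packings in every dimension.
-/

set_option autoImplicit false

open Finset symmDiff

namespace Pool.Agent.Results.MP_c5838f_co.NearQuadratic

open Pool.Agent.H799K Pool.Agent.Helper378.Cube Pool.Agent.Helper378.Final

/-- The point of `ℝ^n` given by a subset of the first `k` coordinates. -/
noncomputable def pnt {k n : ℕ} (hkn : k ≤ n) (x : Finset (Fin k)) : EuclideanSpace ℝ (Fin n) :=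
  WithLp.toLp 2 (fun i => if i ∈ x.map (Fin.castLEEmb hkn) then (1 : ℝ) else 0)

lemma dist_pnt {k n : ℕ} (hkn : k ≤ n) (x y : Finset (Fin k)) :
    dist (pnt hkn x) (pnt hkn y) = Real.sqrt ((x ∆ y).card) := by
  classical
  rw [EuclideanSpace.dist_eq]
  congr 1
  have h1 : ∀ i : Fin n, dist ((pnt hkn x) i) ((pnt hkn y) i) ^ 2 =
      if i ∈ (x ∆ y).map (Fin.castLEEmb hkn) then (1 : ℝ) else 0 := by
    intro i
    have hmap : (i ∈ (x ∆ y).map (Fin.castLEEmb hkn)) ↔
        ¬ ((i ∈ x.map (Fin.castLEEmb hkn)) ↔ (i ∈ y.map (Fin.castLEEmb hkn))) := by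
      simp only [Finset.mem_map, Finset.mem_symmDiff]
      constructor
      · rintro ⟨a, ha, rfl⟩ hiff
        rcases ha with ⟨h1, h2⟩ | ⟨h1, h2⟩
        · obtain ⟨b, hb, hbe⟩ := hiff.mp ⟨a, h1, rfl⟩
          have := (Fin.castLEEmb hkn).injective hbe
          exact h2 (this ▸ hb)
        · obtain ⟨b, hb, hbe⟩ := hiff.mpr ⟨a, h1, rfl⟩
          have := (Fin.castLEEmb hkn).injective hbe
          exact h2 (this ▸ hb)
      · intro h
        by_cases hx : ∃ a ∈ x, (Fin.castLEEmb hkn) a = i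
        · obtain ⟨a, ha, hai⟩ := hx
          refine ⟨a, Or.inl ⟨ha, fun hay => h ⟨fun _ => ⟨a, hay, hai⟩, fun _ => ⟨a, ha, hai⟩⟩⟩, hai⟩
        · by_cases hy : ∃ a ∈ y, (Fin.castLEEmb hkn) a = i
          · obtain ⟨a, ha, hai⟩ := hy
            exact ⟨a, Or.inr ⟨ha, fun hax => hx ⟨a, hax, hai⟩⟩, hai⟩
          · exact absurd ⟨fun h' => absurd h' hx, fun h' => absurd h' hy⟩ h
    unfold pnt
    simp only [Real.dist_eq]
    by_cases hx : i ∈ x.map (Fin.castLEEmb hkn) <;> by_cases hy : i ∈ y.map (Fin.castLEEmb hkn)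
    · rw [if_pos hx, if_pos hy, if_neg (by rw [hmap]; simp [hx, hy])]; norm_num
    · rw [if_pos hx, if_neg hy, if_pos (by rw [hmap]; tauto)]; norm_num
    · rw [if_neg hx, if_pos hy, if_pos (by rw [hmap]; tauto)]; norm_num
    · rw [if_neg hx, if_neg hy, if_neg (by rw [hmap]; tauto)]; norm_num
  rw [Finset.sum_congr rfl (fun i _ => h1 i), Finset.sum_ite_mem, Finset.univ_inter, Finset.sum_const,
    nsmul_eq_mul, Finset.card_map]
  ring

lemma pnt_inj {k n : ℕ} (hkn : k ≤ n) : Function.Injective (pnt hkn) := by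
  intro x y h
  have h1 : dist (pnt hkn x) (pnt hkn y) = 0 := by rw [h, dist_self]
  rw [dist_pnt, Real.sqrt_eq_zero (by positivity)] at h1
  have h3 : (x ∆ y).card = 0 := by exact_mod_cast h1
  rw [Finset.card_eq_zero] at h3
  exact symmDiff_eq_bot.mp h3

lemma sqrt_four : Real.sqrt 4 = 2 := by
  rw [show (4 : ℝ) = 2 * 2 by norm_num, Real.sqrt_mul_self (by norm_num)]

/-- The bound at dimension at least `2 ^ m`. -/
lemma bound_pow (m : ℕ) (hm : 5 ≤ m) (n : ℕ) (hn : 2 ^ m ≤ n) (r : ℝ)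
    (hr : r * (32768 * (m : ℝ) ^ 2) ≤ (2 ^ m) ^ 2) : ((⌈r⌉₊ : ℕ) : ℕ∞) ≤ ballChi n := by
  classical
  obtain ⟨E, X, hE1, hXV, hX2, hXcard, hXT⟩ := comb m hm
  have hE : (1 : ℝ) ≤ E := by exact_mod_cast hE1
  have hmr : (5 : ℝ) ≤ m := by exact_mod_cast hm
  have hcardP : (X.map ⟨pnt hn, pnt_inj hn⟩).card = X.card := Finset.card_map _
  refine ceil_le_ballChi (X.map ⟨pnt hn, pnt_inj hn⟩) ?_ (8192 * (m : ℝ) ^ 2 * E) (by positivity) ?_ r ?_
  · intro a ha b hb hab
    rw [Finset.mem_map] at ha hb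
    obtain ⟨x, hx, rfl⟩ := ha
    obtain ⟨y, hy, rfl⟩ := hb
    simp only [Function.Embedding.coeFn_mk]
    rw [dist_pnt, ← sqrt_four]
    apply Real.sqrt_le_sqrt
    have hne : x ≠ y := fun h => hab (by rw [h])
    have h0 : (x ∆ y).card ≠ 0 := by
      intro h; rw [Finset.card_eq_zero] at h; exact hne (symmDiff_eq_bot.mp h)
    have h2 : (x ∆ y).card ≠ 2 := hX2 x hx y hy
    have he := even_symmDiff (mem_V.mp (hXV hx)) (mem_V.mp (hXV hy))
    have h4 : 4 ≤ (x ∆ y).card := by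
      rw [Nat.even_iff] at he; omega
    exact_mod_cast h4
  · intro T hTP hTd
    let T' : Finset (Finset (Fin (2 ^ m))) := X.filter fun x => pnt hn x ∈ T
    have hT' : T = T'.map ⟨pnt hn, pnt_inj hn⟩ := by
      ext a
      simp only [T', Finset.mem_map, Finset.mem_filter, Function.Embedding.coeFn_mk]
      constructor
      · intro ha
        have := hTP ha
        rw [Finset.mem_map] at this
        obtain ⟨x, hx, rfl⟩ := this
        exact ⟨x, ⟨hx, ha⟩, rfl⟩
      · rintro ⟨x, ⟨_, hx⟩, rfl⟩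
        exact hx
    have hc : T.card = T'.card := by
      rw [hT', Finset.card_map]
    rw [hc]
    refine le_of_lt (hXT T' (Finset.filter_subset _ _) ?_)
    intro v hv u hu hadj
    simp only [T', Finset.mem_filter] at hv hu
    apply hTd _ hv.2 _ hu.2
    rw [dist_pnt]
    have : (v ∆ u).card = 4 := hadj
    rw [this]
    exact_mod_cast sqrt_four
  · rw [hcardP]
    refine le_trans ?_ hXcard
    have h1 := mul_le_mul_of_nonneg_right hr (by linarith : (0 : ℝ) ≤ (E : ℝ))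
    have h2 : r * (8192 * (m : ℝ) ^ 2 * (E : ℝ)) = (r * (32768 * (m : ℝ) ^ 2)) * (E : ℝ) / 4 := by ring
    have h3 : (E : ℝ) * (2 ^ m) ^ 2 / 4 = (2 ^ m) ^ 2 * (E : ℝ) / 4 := by ring
    rw [h2, h3]
    linarith

lemma one_le_ballChi (n : ℕ) : ((1 : ℕ) : ℕ∞) ≤ ballChi n := by
  have h := ceil_le_ballChi (n := n) {0} (by
    intro x hx y hy hxy
    rw [Finset.mem_singleton] at hx hy
    exact absurd (hx.trans hy.symm) hxy) 1 one_pos (by
    intro T hT _
    have := Finset.card_le_card hT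
    rw [Finset.card_singleton] at this
    exact_mod_cast this) 1 (by simp)
  simpa using h

/-- For every `n ≥ 2`, the number `ballChi n` is at least `n ^ 2 / (300000 (log n) ^ 2)`, rounded up. -/
theorem result : ∀ n : ℕ, 2 ≤ n →
    ((⌈(n : ℝ) ^ 2 / (300000 * (Real.log n) ^ 2)⌉₊ : ℕ) : ℕ∞) ≤ ballChi n := by
  intro n hn
  have hnr : (2 : ℝ) ≤ n := by exact_mod_cast hn
  have hlog2 : 0.6931471803 < Real.log 2 := Real.log_two_gt_d9
  have hlogn : Real.log 2 ≤ Real.log n := Real.log_le_log (by norm_num) hnr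
  have hlpos : 0 < Real.log n := by linarith
  by_cases h32 : n < 32
  · -- small dimensions: the bound is at most one
    refine le_trans ?_ (one_le_ballChi n)
    have h1 : (n : ℝ) ^ 2 / (300000 * (Real.log n) ^ 2) ≤ 1 := by
      rw [div_le_one (by positivity)]
      have h2 : (n : ℝ) ≤ 32 := by exact_mod_cast h32.le
      have h3 : (n : ℝ) ^ 2 ≤ 1024 := by nlinarith
      have h4 : 0.48 ≤ (Real.log n) ^ 2 := by nlinarith
      linarith
    have h2 : ⌈(n : ℝ) ^ 2 / (300000 * (Real.log n) ^ 2)⌉₊ ≤ 1 := by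
      rw [Nat.ceil_le]
      exact_mod_cast h1
    exact_mod_cast h2
  · push Not at h32
    have hn0 : n ≠ 0 := by omega
    set m : ℕ := Nat.log 2 n with hm
    have hpow : 2 ^ m ≤ n := Nat.pow_log_le_self 2 hn0
    have hlt : n < 2 ^ (m + 1) := Nat.lt_pow_succ_log_self (by norm_num) n
    have hm5 : 5 ≤ m := by
      have h := Nat.log_mono_right (b := 2) h32
      have h2 : Nat.log 2 32 = 5 := by
        rw [show (32 : ℕ) = 2 ^ 5 by norm_num, Nat.log_pow (by norm_num)]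
      rw [h2] at h
      exact h
    refine bound_pow m hm5 n hpow _ ?_
    have hm0 : (0 : ℝ) < m := by
      have : 0 < m := by omega
      exact_mod_cast this
    have hmlog : (m : ℝ) * Real.log 2 ≤ Real.log n := by
      have h1 : ((2 : ℝ) ^ m) ≤ n := by exact_mod_cast hpow
      have h2 := Real.log_le_log (by positivity) h1
      rwa [Real.log_pow] at h2
    have hlt' : (n : ℝ) ≤ 2 * 2 ^ m := by
      have : (n : ℝ) < 2 ^ (m + 1) := by exact_mod_cast hlt
      rw [pow_succ] at this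
      linarith
    have hsq : (m : ℝ) ^ 2 * 0.4804 ≤ (Real.log n) ^ 2 := by
      have h1 : ((m : ℝ) * Real.log 2) ^ 2 ≤ (Real.log n) ^ 2 :=
        pow_le_pow_left₀ (by positivity) hmlog 2
      have h2 : 0.4804 ≤ (Real.log 2) ^ 2 := by nlinarith
      calc (m : ℝ) ^ 2 * 0.4804 ≤ (m : ℝ) ^ 2 * (Real.log 2) ^ 2 :=
            mul_le_mul_of_nonneg_left h2 (by positivity)
        _ = ((m : ℝ) * Real.log 2) ^ 2 := by ring
        _ ≤ _ := h1
    have hn2 : (n : ℝ) ^ 2 ≤ 4 * (2 ^ m) ^ 2 := by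
      calc (n : ℝ) ^ 2 ≤ (2 * 2 ^ m) ^ 2 := pow_le_pow_left₀ (by positivity) hlt' 2
        _ = 4 * (2 ^ m) ^ 2 := by ring
    rw [div_mul_eq_mul_div, div_le_iff₀ (by positivity)]
    have hp : (0 : ℝ) < (2 ^ m) ^ 2 := by positivity
    calc (n : ℝ) ^ 2 * (32768 * (m : ℝ) ^ 2) ≤ (4 * (2 ^ m) ^ 2) * (32768 * (m : ℝ) ^ 2) :=
          mul_le_mul_of_nonneg_right hn2 (by positivity)
      _ = (2 ^ m) ^ 2 * (131072 * (m : ℝ) ^ 2) := by ring
      _ ≤ (2 ^ m) ^ 2 * (300000 * (Real.log n) ^ 2) := by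
          apply mul_le_mul_of_nonneg_left _ hp.le
          have h0 : (0 : ℝ) ≤ (m : ℝ) ^ 2 := by positivity
          nlinarith

end Pool.Agent.Results.MP_c5838f_co.NearQuadratic
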